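import Pool.Agent.H.MP_0c20e5_lc.A
import Pool.Agent.Lib.helper21.Queue
import Pool.Agent.Lib.helper21.RLG
import Pool.Agent.Lib.helper21.PR

set_option autoImplicit false
set_option linter.unusedVariables false
set_option linter.unusedSectionVars false

/-! A regular language whose shuffle decomposability encodes non-halting of a queue automaton. -/

namespace Pool.Agent.H.MP_ea5d49_lc

open List Relation Classical Pool.Agent.H.MP_0c20e5_lc Pool.Agent.Lib.helper21 Queue

def Dec {A : Type} (R : List A → Prop) : Prop := ∃ L₁ L₂ : Set (List A),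
  L₁ ≠ {[]} ∧ L₂ ≠ {[]} ∧ ∀ w, R w ↔ ∃ u ∈ L₁, ∃ v ∈ L₂, Sh u v w

section
variable {A : Type} {u v w : List A}

theorem shc (h : Sh u v w) (p : A → Bool) : w.countP p = u.countP p + v.countP p := by
  induction h <;> simp [countP_cons, *] <;> omega

theorem shn (h : Sh u [] w) : w = u := by
  induction w generalizing u <;> cases h
  exacts [rfl, congrArg _ (by apply_assumption; assumption)]

theorem shf (h : Sh u v w) (p : A → Bool) (a : ∀ x ∈ u, p x) (b : ∀ x ∈ v, ¬ p x) : w.filter p = u := by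
  induction h <;> simp_all

theorem shm (h : Sh u v w) (x) : x ∈ w ↔ x ∈ u ∨ x ∈ v := by
  induction h <;> simp [*] <;> tauto

theorem sh_iff : Sh u v w ↔ ∃ m : List Bool, m.length = w.length ∧
    ((w.zip m).filter (fun x => x.2)).map Prod.fst = u ∧
      ((w.zip m).filter (fun x => !x.2)).map Prod.fst = v := by
  constructor
  · intro h
    induction h with
    | nil => exact ⟨[], rfl, rfl, rfl⟩
    | l a _ ih => obtain ⟨m, b, rfl, rfl⟩ := ih; exact ⟨true :: m, by simp [b], by simp, by simp⟩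
    | r a _ ih => obtain ⟨m, b, rfl, rfl⟩ := ih; exact ⟨false :: m, by simp [b], by simp, by simp⟩
  · rintro ⟨m, a, rfl, rfl⟩
    induction w generalizing m with
    | nil => exact .nil
    | cons x w ih =>
      obtain _ | ⟨_ | _, m⟩ := m
      · cases a
      · exact .r x (ih m (Nat.succ.inj a))
      · exact .l x (ih m (Nat.succ.inj a))

theorem Dec.equiv {B : Type} (e : A ≃ B) {R : List A → Prop} (h : Dec R) :
    Dec fun w => R (w.map e.symm) := by
  obtain ⟨L, M, a, b, c⟩ := h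
  have k : ∀ L : Set (List A), L ≠ {[]} → {w : List B | w.map e.symm ∈ L} ≠ {[]} := fun L a b =>
    a (Set.ext fun w => by simpa [Function.comp_def] using Set.ext_iff.1 b (w.map e))
  refine ⟨_, _, k L a, k M b, fun w => (c _).trans ⟨fun ⟨u, d, v, f, g⟩ => ?_,
    fun ⟨u, d, v, f, g⟩ => ⟨_, d, _, f, g.map _⟩⟩⟩
  obtain ⟨u, v, rfl, rfl, g'⟩ := g.unmap
  exact ⟨u, d, v, f, g'⟩

theorem rcong {L M : Language A} (h : L.IsRegular) (e : ∀ w, w ∈ L ↔ w ∈ M) : M.IsRegular :=
  (Set.ext e : L = M) ▸ h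

theorem finReg {L : Language A} (h : Set.Finite L) : L.IsRegular := by
  refine .of_finite_range_leftQuotient ((h.biUnion fun w _ => finite_toSet w.tails).finite_subsets.subset ?_)
  rintro _ ⟨x, rfl⟩ w e
  exact Set.mem_biUnion e ((mem_tails _ _).2 ⟨x, rfl⟩)

theorem cntReg (p : A → Bool) (P : ℕ → Prop) (h : ∀ n, 2 ≤ n → (P n ↔ P 2)) :
    Language.IsRegular {w : List A | P (w.countP p)} := by
  refine .of_finite_range_leftQuotient (((Set.finite_Iic 2).image
    fun n => {w : List A | P (n + w.countP p)}).subset ?_)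
  rintro _ ⟨x, rfl⟩
  refine ⟨min (x.countP p) 2, Nat.min_le_right _ _, Set.ext fun w => ?_⟩
  show _ ↔ P ((x ++ w).countP p)
  rw [countP_append]
  obtain a | a := le_total (x.countP p) 2
  · simp [a]
  · rw [min_eq_right a, h (x.countP p + w.countP p) (by omega)]
    exact h _ (by omega)

theorem table [Finite A] {L : Language A} (h : L.IsRegular) : ∃ (k : ℕ) (e : A ≃ Fin k)
    (f : List ℕ → List ℕ × List ℕ), Primrec f ∧ ∀ (x : List A) (w : List (Fin k)),
      (w.foldl (fun q a => (f (x.map fun a => (e a).val)).1.getD (q * k + a.val) 0) 0 ∈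
        (f (x.map fun a => (e a).val)).2) ↔ w.map e.symm ∈ L ∧ w.map e.symm ≠ x := by
  obtain ⟨σ, _, M, rfl⟩ := h
  obtain ⟨k, ⟨e⟩⟩ := Finite.exists_equiv_fin A
  obtain ⟨m, ⟨n0⟩⟩ := Finite.exists_equiv_fin σ
  have m0 : 0 < m := (n0 M.start).pos
  obtain ⟨n, hn⟩ : ∃ n : σ ≃ Fin m, (n M.start).val = 0 :=
    ⟨n0.trans (Equiv.swap (n0 M.start) ⟨0, m0⟩), by simp⟩
  obtain ⟨T, hT⟩ : ∃ T : List (List ℕ), ∀ q a, (T.getD (n q) []).getD (e a) 0 = n (M.step q a) :=
    ⟨List.ofFn fun q => List.ofFn fun a => n (M.step (n.symm q) (e.symm a)), fun q a => by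
      simp [getD_eq_getElem?_getD]⟩
  obtain ⟨F, hF⟩ : ∃ F : List ℕ, ∀ q, (n q).val ∈ F ↔ q ∈ M.accept :=
    ⟨(range m).filter fun i => decide (∃ q ∈ M.accept, (n q).val = i), fun q => by simp [Fin.val_inj]⟩
  refine ⟨k, e, fun x => ((range (m * (x.length + 2) * k)).map fun t => (T.getD (t / k % m) []).getD (t % k) 0 +
    m * if x[t / k / m]? = some (t % k) then t / k / m + 1 else x.length + 1,
    (range (m * (x.length + 2))).filter fun s => decide (s % m ∈ F ∧ s / m ≠ x.length)), by fun_prop,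
    fun x w => ?_⟩
  obtain ⟨w, rfl⟩ : ∃ w' : List A, w = w'.map e := ⟨w.map e.symm, by simp [Function.comp_def]⟩
  simp only [List.map_map, Equiv.symm_comp_self, map_id, foldl_map, length_map]
  have lt : ∀ q j, j ≤ x.length + 1 → (n q).val + m * j < m * (x.length + 2) := fun q j a => by
    have := (n q).2
    have := Nat.mul_le_mul_left m a
    simp only [Nat.mul_succ] at *
    omega
  have key : ∀ w : List A, w.foldl (fun q a => ((range (m * (x.length + 2) * k)).map fun t =>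
      (T.getD (t / k % m) []).getD (t % k) 0 + m * if (x.map fun a => (e a).val)[t / k / m]? = some (t % k)
        then t / k / m + 1 else x.length + 1).getD (q * k + (e a).val) 0) 0 =
      n (M.eval w) + m * if w <+: x then w.length else x.length + 1 := fun w => by
    induction w using List.reverseRecOn with
    | nil => simp [hn]
    | append_singleton w a ih =>
      rw [foldl_append, ih, foldl_cons, foldl_nil]
      generalize hj : (if w <+: x then w.length else x.length + 1) = j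
      have k0 := (e a).2
      have := lt (M.eval w) j (by split_ifs at hj with c <;> [have := c.length_le; skip] <;> omega)
      have l2 : ((n (M.eval w)).val + m * j) * k + e a < m * (x.length + 2) * k := by
        have := Nat.mul_le_mul_right k (Nat.succ_le_of_lt this)
        rw [Nat.succ_mul] at this
        omega
      have d1 : (((n (M.eval w)).val + m * j) * k + e a) / k = n (M.eval w) + m * j := by
        rw [add_comm, Nat.add_mul_div_right _ _ (by omega), Nat.div_eq_of_lt k0, zero_add]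
      have d2 : (((n (M.eval w)).val + m * j) * k + e a) % k = e a := by
        rw [add_comm, Nat.add_mul_mod_self_right, Nat.mod_eq_of_lt k0]
      rw [getD_eq_getElem?_getD, getElem?_map, getElem?_range l2]
      simp only [Option.map_some, Option.getD_some, d1, d2, Nat.add_mul_mod_self_left,
        Nat.mod_eq_of_lt (n _).2, Nat.add_mul_div_left _ _ m0, Nat.div_eq_of_lt (n _).2, zero_add, hT,
        DFA.eval_append_singleton, getElem?_map, length_append, length_singleton]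
      congr 2
      subst hj
      by_cases c : w <+: x
      · obtain ⟨_ | ⟨b, y⟩, rfl⟩ := c <;> simp [Fin.val_inj, eq_comm]
      · simp [c, show ¬ w ++ [a] <+: x from fun d => c ((prefix_append _ _).trans d)]
  rw [key, mem_filter, mem_range, decide_eq_true_eq, Nat.add_mul_mod_self_left, Nat.mod_eq_of_lt (n _).2,
    Nat.add_mul_div_left _ _ m0, Nat.div_eq_of_lt (n _).2, zero_add, hF, and_iff_right
      (lt _ _ (by split_ifs with c <;> [have := c.length_le; skip] <;> omega))]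
  refine and_congr .rfl (not_congr ⟨fun a => ?_, fun a => by simp [a]⟩)
  split_ifs at a with c
  exacts [c.eq_of_length a, by omega]
end

inductive La (G : Type)
  | z | d | i | s (b : Bool) (g : G)

open La

instance {G : Type} [Finite G] : Finite (La G) :=
  .of_surjective (fun x : Option (Option (Option (Bool × G))) => x.elim z (·.elim d (·.elim i fun y => s y.1 y.2)))
    (by rintro (_ | _ | _ | ⟨b, g⟩); exacts [⟨none, rfl⟩, ⟨some none, rfl⟩, ⟨some (some none), rfl⟩,
      ⟨some (some (some (b, g))), rfl⟩])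

variable {Q S : Type} (δ : Q → S → Option Q × List S)

def ty : La (Option Q ⊕ S) → Option Bool
  | i => some false
  | s b _ => some b
  | _ => none

def isz : La (Option Q ⊕ S) → Bool | z => true | _ => false
def isd : La (Option Q ⊕ S) → Bool | d => true | _ => false

def cf (b : Bool) (c : Option Q × List S) : List (La (Option Q ⊕ S)) :=
  s b (.inl c.1) :: c.2.map fun y => s b (.inr y)

def il (b : Bool) (t : List S) : List (La (Option Q ⊕ S)) :=
  t.flatMap fun y => [s b (.inr y), s (!b) (.inr y)]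

def W (w : List (La (Option Q ⊕ S))) : Prop := ∃ b t, w = d :: t ∧ ∀ y ∈ t, ty y = some b

def X (w : List (La (Option Q ⊕ S))) : Prop := (∃ b, w = [d, d, s b (.inl none)]) ∨ ∃ b q x t,
  w = [d, d, s b (.inl (some q)), s b (.inr x), s (!b) (.inl (δ q x).1)] ++
    (il b t ++ (δ q x).2.map fun y => s (!b) (.inr y))

def R0 (w : List (La (Option Q ⊕ S))) : Prop := w ∈ ({[]} : Set _) ∨ W w ∨
  (w.countP isz = 0 ∧ 2 ≤ w.countP isd ∧ ¬ X δ w) ∨ (w.countP isz = 1 ∧ w.countP isd ≤ 1 ∧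
    ¬ w ∈ ({[z, i], [d, z, i], [z, d, i], [z, i, d]} : Set _))

theorem regW [Finite Q] [Finite S] : Language.IsRegular {w : List (La (Option Q ⊕ S)) | W w} := by
  have := RLG.regular (P := Option Bool) (A := La (Option Q ⊕ S)) (fun p u o => p = none ∧ u = [d] ∧ (∃ b, o = some (some b)) ∨
    ∃ b, p = some b ∧ (u = [] ∧ o = none ∨ ∃ y, ty y = some b ∧ u = [y] ∧ o = some p)) 1
    (by rintro _ _ _ (⟨-, rfl, -⟩ | ⟨_, -, ⟨rfl, -⟩ | ⟨_, -, rfl, -⟩⟩) <;> simp) none
  refine rcong this fun w => ⟨fun h => ?_, ?_⟩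
  · suffices ∀ p w, RLG.Gen _ p w → (p = none → W w) ∧ ∀ b, p = some b → ∀ y ∈ w, ty y = some b from
      (this _ w h).1 rfl
    intro p w h
    induction h with
    | stop a => obtain ⟨_, _, _, ⟨⟩⟩ | ⟨b, rfl, ⟨rfl, -⟩ | ⟨_, _, _, ⟨⟩⟩⟩ := a; simp
    | go a _ ih =>
      obtain ⟨rfl, rfl, b, ⟨⟩⟩ | ⟨b, rfl, ⟨_, ⟨⟩⟩ | ⟨y, c, rfl, ⟨⟩⟩⟩ := a
      exacts [⟨fun _ => ⟨b, _, rfl, ih.2 b rfl⟩, nofun⟩, ⟨nofun, by simpa [c] using ih.2 b rfl⟩]
  · rintro ⟨b, t, rfl, h⟩
    refine .go (u := [d]) (.inl ⟨rfl, rfl, b, rfl⟩) ?_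
    induction t with
    | nil => exact .stop (.inr ⟨b, rfl, .inl ⟨rfl, rfl⟩⟩)
    | cons y t ih =>
      exact .go (u := [y]) (.inr ⟨b, rfl, .inr ⟨y, h y mem_cons_self, rfl, rfl⟩⟩)
        (ih fun y e => h y (mem_cons_of_mem _ e))

theorem regX [Finite Q] [Finite S] : Language.IsRegular {w | X δ w} := by
  obtain ⟨B, hB⟩ := (Set.finite_range fun x : Q × S => (δ x.1 x.2).2.length).bddAbove
  have := RLG.regular (P := Option (Bool × Q × S)) (A := La (Option Q ⊕ S)) (fun p u o =>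
    p = none ∧ o = none ∧ (∃ b, u = [d, d, s b (.inl none)]) ∨ ∃ b q x,
      p = none ∧ o = some (some (b, q, x)) ∧ u = [d, d, s b (.inl (some q)), s b (.inr x), s (!b) (.inl (δ q x).1)] ∨
      p = some (b, q, x) ∧ (o = none ∧ u = (δ q x).2.map (fun y => s (!b) (.inr y)) ∨
        o = some p ∧ ∃ y, u = [s b (.inr y), s (!b) (.inr y)])) (B + 5) (by
      rintro _ _ _ (⟨-, -, _, rfl⟩ | ⟨_, q, x, ⟨-, -, rfl⟩ | ⟨-, ⟨-, rfl⟩ | ⟨-, _, rfl⟩⟩⟩) <;> simp
      exact (hB ⟨(q, x), rfl⟩).trans (by omega)) none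
  refine rcong this fun w => ⟨fun h => ?_, ?_⟩
  · suffices ∀ p w, RLG.Gen _ p w → (p = none → X δ w) ∧ ∀ b q x, p = some (b, q, x) →
        ∃ t, w = il b t ++ (δ q x).2.map fun y => s (!b) (.inr y) from (this _ w h).1 rfl
    intro p w h
    induction h with
    | stop a =>
      obtain ⟨rfl, -, a⟩ | ⟨b, q, x, ⟨_, ⟨⟩, _⟩ | ⟨rfl, ⟨-, rfl⟩ | ⟨⟨⟩, _⟩⟩⟩ := a
      exacts [⟨fun _ => .inl a, nofun⟩, ⟨nofun, by rintro _ _ _ ⟨⟩; exact ⟨[], rfl⟩⟩]
    | go a _ ih =>
      obtain ⟨_, ⟨⟩, _⟩ | ⟨b, q, x, ⟨rfl, ⟨⟩, rfl⟩ | ⟨rfl, ⟨⟨⟩, _⟩ | ⟨⟨⟩, y, rfl⟩⟩⟩ := a <;>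
        obtain ⟨t, rfl⟩ := ih.2 b q x rfl
      exacts [⟨fun _ => .inr ⟨b, q, x, t, rfl⟩, nofun⟩, ⟨nofun, by rintro _ _ _ ⟨⟩; exact ⟨y :: t, rfl⟩⟩]
  · rintro (a | ⟨b, q, x, t, rfl⟩)
    · exact .stop (.inl ⟨rfl, rfl, a⟩)
    refine .go (.inr ⟨b, q, x, .inl ⟨rfl, rfl, rfl⟩⟩) ?_
    induction t with
    | nil => exact .stop (.inr ⟨b, q, x, .inr ⟨rfl, .inl ⟨rfl, rfl⟩⟩⟩)
    | cons y t ih => exact .go (u := [_, _]) (.inr ⟨b, q, x, .inr ⟨rfl, .inr ⟨rfl, y, rfl⟩⟩⟩) ih

theorem regR [Finite Q] [Finite S] : Language.IsRegular {w | R0 δ w} :=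
  (finReg (Set.toFinite _)).add (regW.add (((cntReg isz (· = 0) (by omega)).inf
    ((cntReg isd (2 ≤ ·) (by omega)).inf (regX δ).compl)).add ((cntReg isz (· = 1) (by omega)).inf
      ((cntReg isd (· ≤ 1) (by omega)).inf (finReg (Set.toFinite _)).compl))))

theorem W.cnt {w : List (La (Option Q ⊕ S))} (h : W w) : w.countP isz = 0 ∧ w.countP isd = 1 := by
  obtain ⟨b, t, rfl, h⟩ := h
  have : ∀ y ∈ t, isz y = false ∧ isd y = false := fun y e => by
    have := h y e
    cases y <;> simp_all [ty, isz, isd]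
  rw [countP_cons, countP_cons, countP_eq_zero.2 fun y e => by simp [(this y e).1],
    countP_eq_zero.2 fun y e => by simp [(this y e).2]]
  exact ⟨rfl, rfl⟩

theorem cfP (b) (c : Option Q × List S) : ∀ y ∈ cf b c, ty y = some b := by simp +contextual [cf, ty]

theorem cfW (b) (c : Option Q × List S) : W (d :: cf b c) := ⟨b, _, rfl, cfP b c⟩

theorem shil (b) (t : List S) : Sh (t.map fun y => s b (.inr y)) (t.map fun y => s (!b) (.inr y))
    (il (Q := Q) b t) := by
  induction t with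
  | nil => exact .nil
  | cons y t ih => exact .l _ (.r _ ih)

theorem shstep (b q x t) : Sh (cf b (some q, x :: t)) (cf (!b) ((δ q x).1, t ++ (δ q x).2))
    ([s b (.inl (some q)), s b (.inr x), s (!b) (.inl (δ q x).1)] ++
      (il b t ++ (δ q x).2.map fun y => s (!b) (.inr y))) :=
  .l _ (.l _ (.r _ (by simpa using (shil b t).app (shL _).comm)))

variable {δ}

theorem X.cnt {w} (h : X δ w) : w.countP isd = 2 := by
  obtain ⟨b, rfl⟩ | ⟨b, q, x, t, rfl⟩ := h
  · rfl
  · have := shc (Sh.l d (Sh.r d (shstep δ b q x t))) isd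
    rwa [(cfW _ _).cnt.2, (cfW _ _).cnt.2] at this

theorem two {t t' y α β : List (La (Option Q ⊕ S))} {b b' c : Bool} (h : Sh t t' y)
    (a : ∀ y ∈ t, ty y = some b) (a' : ∀ y ∈ t', ty y = some b') (k : Sh α β y) (k1 : α ≠ []) (k2 : β ≠ [])
    (e : ∀ y ∈ α, ty y = some c) (e' : ∀ y ∈ β, ty y = some !c) : t = α ∧ t' = β ∨ t = β ∧ t' = α := by
  have f := shf k (fun y => decide (ty y = some c)) (by simpa) fun x m => by simp [e' x m]
  have f' := shf k.comm (fun y => decide (ty y = some !c)) (by simpa) fun x m => by simp [e x m]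
  obtain ⟨x, m⟩ := exists_mem_of_ne_nil _ k1
  obtain ⟨x', m'⟩ := exists_mem_of_ne_nil _ k2
  have g := ((shm h x).1 ((shm k x).2 (.inl m))).imp (a x) (a' x)
  have g' := ((shm h x').1 ((shm k x').2 (.inr m'))).imp (a x') (a' x')
  rw [e x m] at g
  rw [e' x' m'] at g'
  obtain ⟨rfl, rfl⟩ | ⟨rfl, rfl⟩ : b = c ∧ b' = !c ∨ b = !c ∧ b' = c := by
    revert g g'; cases b <;> cases b' <;> cases c <;> simp
  · exact .inl ⟨(shf h _ (by simpa) fun x m => by simp [a' x m]).symm.trans f,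
      (shf h.comm _ (by simpa) fun x m => by simp [a x m]).symm.trans f'⟩
  · exact .inr ⟨(shf h _ (by simpa) fun x m => by simp [a' x m]).symm.trans f',
      (shf h.comm _ (by simpa) fun x m => by simp [a x m]).symm.trans f⟩

theorem dd {t t' y : List (La (Option Q ⊕ S))} {b b' : Bool} (h : Sh (d :: t) (d :: t') (d :: d :: y))
    (a : ∀ y ∈ t, ty y = some b) (a' : ∀ y ∈ t', ty y = some b') : Sh t t' y := by
  obtain _ | ⟨_, _ | _ | ⟨_, h⟩⟩ | ⟨_, _ | ⟨_, h⟩ | _⟩ := h
  exacts [by simpa [ty] using a d, h, h, by simpa [ty] using a' d]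

theorem yes {c0} (h : ¬ Reach δ c0 (none, [])) : Dec fun w => R0 δ w ∧ w ≠ d :: d :: i :: cf true c0 := by
  obtain ⟨C, hC⟩ : ∃ C : List (La (Option Q ⊕ S)) → Prop, ∀ v, C v ↔ v = [d] ∨
    ∃ b c, v = d :: cf b c ∧ Reach δ c (none, []) := ⟨_, fun _ => .rfl⟩
  have cW : ∀ v, C v → W v := fun v a => by
    obtain rfl | ⟨b, c, rfl, -⟩ := (hC v).1 a
    exacts [⟨true, [], rfl, by simp⟩, cfW _ _]
  have cc : ∀ b c, C (d :: cf b c) ↔ Reach δ c (none, []) := fun b c => (hC _).trans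
    ⟨fun a => by
      obtain ⟨b', c', e, f⟩ := a.resolve_left (by simp [cf])
      simp only [cf, cons.injEq, s.injEq, Sum.inl.injEq, true_and] at e
      obtain ⟨⟨rfl, e1⟩, e2⟩ := e
      rwa [Prod.ext e1 (map_injective_iff.2 (fun _ _ => by simp) e2)], fun a => .inr ⟨b, c, rfl, a⟩⟩
  have ci : ¬ C [d, i] := by simp [hC, cf]
  have x2 : (d :: d :: i :: cf true c0).countP isd = 2 := by
    simpa [countP_cons, isd] using (cfW true c0).cnt.2
  have edge : ∀ u v w, W u → W v → Sh u v w → X δ w ∨ w = d :: d :: i :: cf true c0 → (C u ↔ C v) := by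
    rintro _ _ w ⟨b, t, rfl, a⟩ ⟨b', t', rfl, a'⟩ k ((⟨c, rfl⟩ | ⟨c, q, x, y, rfl⟩) | rfl)
    · have e := (cc c (none, [])).2 .refl
      have e' := (hC _).2 (.inl rfl)
      obtain _ | ⟨_, ⟨⟩⟩ | ⟨_, ⟨⟩⟩ := dd k a a' <;> exact iff_of_true ‹_› ‹_›
    · have e : C (d :: cf c (some q, x :: y)) ↔ C (d :: cf (!c) ((δ q x).1, y ++ (δ q x).2)) := by
        rw [cc, cc]
        refine ⟨fun r => ?_, .head rfl⟩
        obtain r' | ⟨_, ⟨⟩, r'⟩ := r.cases_head
        exacts [(nomatch r'), r']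
      obtain ⟨rfl, rfl⟩ | ⟨rfl, rfl⟩ := two (c := c) (dd k a a') a a' (shstep δ c q x y) (by simp [cf])
        (by simp [cf]) (cfP _ _) (cfP _ _)
      exacts [e, e.symm]
    · obtain ⟨rfl, rfl⟩ | ⟨rfl, rfl⟩ := two (c := false) (dd k a a') a a' (shA [i] (cf true c0)) (by simp)
        (by simp [cf]) (by simp [ty]) (cfP _ _) <;> simp [ci, cc, h]
  refine ⟨{u | (R0 δ u ∧ u ≠ d :: d :: i :: cf true c0) ∧ ¬ C u ∧ ¬ (u.countP isz = 1 ∧ u.countP isd = 1)},
    {v | v = [] ∨ C v}, fun e => ?_, fun e => ?_, fun w => ⟨fun a => ?_, ?_⟩⟩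
  · simpa [R0, hC, isz, isd] using Set.ext_iff.1 e [z]
  · simpa [hC] using Set.ext_iff.1 e [d]
  · by_cases b : C w
    · exact ⟨[], ⟨⟨.inl rfl, by simp⟩, by simp [hC], by simp⟩, w, .inr b, (shL w).comm⟩
    by_cases c : w.countP isz = 1 ∧ w.countP isd = 1
    swap
    · exact ⟨w, ⟨a, b, c⟩, [], .inl rfl, shL w⟩
    obtain ⟨y, e, f⟩ := countP_pos_iff.1 (c.2 ▸ Nat.one_pos)
    obtain rfl : y = d := by cases y <;> simp_all [isd]
    obtain ⟨p, q, rfl⟩ := append_of_mem e
    have k : Sh (p ++ q) [d] (p ++ d :: q) := (shL p).app (.r d (shL q))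
    have k1 : (p ++ q).countP isz = 1 := by simpa [isz] using (shc k isz).symm.trans c.1
    have k2 : (p ++ q).countP isd = 0 := by simpa [isd, -countP_append] using (shc k isd).symm.trans c.2
    refine ⟨_, ⟨⟨.inr (.inr (.inr ⟨k1, by omega, fun g => ?_⟩)), fun g => by rw [g] at k2; omega⟩,
      fun g => by have := (cW _ g).cnt; omega, by omega⟩, _, .inr ((hC _).2 (.inl rfl)), k⟩
    obtain g | g | g | g := g
    · obtain r | r | r | r := a.1
      · simp at r
      · have := r.cnt; omega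
      · omega
      · refine r.2.2 ?_
        obtain _ | ⟨_, _ | ⟨_, _ | _⟩⟩ := p <;> simp_all
    all_goals
      rw [g] at k2
      cases k2
  · rintro ⟨u, ⟨⟨a, a'⟩, b, c⟩, v, rfl | e, k⟩
    · exact shn k ▸ ⟨a, a'⟩
    have f := (cW v e).cnt
    have k1 := shc k isz
    have k2 := shc k isd
    obtain rfl | a | a | a := a
    · obtain rfl := shn k.comm
      exact ⟨.inr (.inl (cW _ e)), fun g => by rw [g] at f; omega⟩
    · have := a.cnt
      have := fun r => b ((edge u v w a (cW v e) k r).2 e)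
      exact ⟨.inr (.inr (.inl ⟨by omega, by omega, fun r => this (.inl r)⟩)), fun r => this (.inr r)⟩
    · exact ⟨.inr (.inr (.inl ⟨by omega, by omega, fun r => by have := r.cnt; omega⟩)),
        fun g => by rw [g] at k2; omega⟩
    · refine ⟨.inr (.inr (.inr ⟨by omega, by omega, fun g => ?_⟩)), fun g => by rw [g] at k2; omega⟩
      obtain ⟨_, t, rfl, -⟩ := cW _ e
      obtain rfl | rfl | rfl | rfl := g
      · obtain _ | ⟨_, _ | ⟨_, ⟨⟩⟩⟩ := k
      all_goals
        have q : u ≠ [z, i] := by rintro rfl; exact a.2.2 (.inl rfl)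
        have q' : u.countP isz = 1 := a.1
        clear * - k q q' e ci
        casesm* Sh _ _ _
        all_goals simp_all [isz]

theorem no {c0} (h : Reach δ c0 (none, [])) : ¬ Dec fun w => R0 δ w ∧ w ≠ d :: d :: i :: cf true c0 := by
  have key : ∀ L M : Set (List (La (Option Q ⊕ S))), (∀ w, R0 δ w ∧ w ≠ d :: d :: i :: cf true c0 ↔
      ∃ u ∈ L, ∃ v ∈ M, Sh u v w) → ([z] ∈ L ∨ [z] ∈ M) ∧ ([z] ∈ L → M = {[]}) := by
    intro L M k
    obtain ⟨_, l0, _, m0, ⟨⟩⟩ := (k []).1 ⟨.inl rfl, by simp⟩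
    have k' : ∀ u ∈ L, ∀ v ∈ M, ∀ w, Sh u v w → R0 δ w := fun u a v b w c => ((k w).2 ⟨u, a, v, b, c⟩).1
    refine ⟨?_, fun a => ?_⟩
    · obtain ⟨_, a, _, b, _ | ⟨_, ⟨⟩⟩ | ⟨_, ⟨⟩⟩⟩ := (k [z]).1 (by simp [R0, isz, isd])
      exacts [.inl a, .inr b]
    have r0 : ∀ w, R0 δ w → w.countP isz = 0 → w.countP isd = 0 → w = [] := by
      rintro w (b | b | b | b) c e
      exacts [b, by have := b.cnt; omega, by omega, by omega]
    have hop : ∀ u ∈ L, ∀ v w, W v → Sh u v w → ¬ (R0 δ w ∧ w ≠ d :: d :: i :: cf true c0) → v ∈ L := by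
      intro u b v w c e f
      obtain ⟨x, g, y, g', r⟩ := (k v).1 ⟨.inr (.inl c), by
        rintro rfl
        simpa [countP_cons, isd] using c.cnt.2⟩
      have := c.cnt
      have := shc r isz
      have := shc r isd
      by_cases q : y.countP isd = 0
      · obtain rfl := r0 y (k' _ l0 _ g' _ (shL y).comm) (by omega) q
        exact shn r ▸ g
      · obtain rfl := r0 x (k' _ g _ m0 _ (shL x)) (by omega) (by omega)
        exact (f ((k w).2 ⟨u, b, y, g', shn r.comm ▸ e⟩)).elim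
    have nX : ∀ w, X δ w → w.countP isz = 0 → ¬ (R0 δ w ∧ w ≠ d :: d :: i :: cf true c0) := by
      rintro w b c ⟨e | e | e | e, -⟩
      exacts [by have := b.cnt; simp_all, by have := e.cnt; have := b.cnt; omega, e.2.2 b, by omega]
    have h1 := hop _ a [d, i] _ ⟨false, [i], rfl, by simp [ty]⟩ (shA _ _) (by simp [R0, W, isz])
    have h2 : ∃ b, d :: cf b (none, []) ∈ L := by
      have := hop _ h1 _ _ (cfW true c0) (.l d (.r d (shA [i] _))) (by simp)
      generalize true = b at this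
      clear * - h this hop nX
      generalize c0 = c at h this
      induction h using ReflTransGen.head_induction_on generalizing b with
      | refl => exact ⟨b, this⟩
      | @head c c' e _ ih =>
        obtain ⟨_ | q, _ | ⟨x, t⟩⟩ := c <;> cases e
        have r := Sh.l d (Sh.r d (shstep δ b q x t))
        exact ih _ (hop _ this _ _ (cfW _ _) r (nX _ (.inr ⟨b, q, x, t, rfl⟩) (by
          rw [shc r, (cfW _ _).cnt.1, (cfW _ _).cnt.1])))
    obtain ⟨b, h2⟩ := h2
    have h3 : [d] ∉ M := fun e => nX _ (.inl ⟨b, rfl⟩) rfl ((k _).2 ⟨_, h2, _, e, .r d (shL _)⟩)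
    have h4 : ∀ v ∈ M, v = [] ∨ W v := fun v e => by
      obtain f | f | f | f := k' _ a v e _ (shA _ _)
      · cases f
      · simp [W] at f
      · simp [isz] at f
      obtain g | g | g | g := k' _ l0 v e _ (shL v).comm
      · exact .inl g
      · exact .inr g
      all_goals
        have f1 : v.countP isz + 1 = 1 := (countP_cons_of_pos (a := z) rfl).symm.trans f.1
        have f2 : v.countP isd ≤ 1 := (countP_cons_of_neg (a := z) (by simp [isd])).symm.trans_le f.2.1
        omega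
    have h5 : [z, d] ∈ L := by
      obtain ⟨x, g, y, g', r⟩ := (k [z, d]).1 (by simp [R0, isz, isd])
      obtain rfl | ⟨_, t, rfl, -⟩ := h4 y g'
      · exact shn r ▸ g
      · obtain _ | ⟨_, _ | ⟨_, ⟨⟩⟩ | ⟨_, ⟨⟩⟩⟩ := r
        exact (h3 g').elim
    refine Set.eq_singleton_iff_unique_mem.2 ⟨m0, fun v e => (h4 v e).resolve_right fun f => ?_⟩
    have := f.cnt
    simpa [R0, W, isz, isd, countP_cons, this] using k' _ h5 v e _ (shA _ _)
  rintro ⟨L, M, a, b, c⟩
  exact (key L M c).1.elim (fun e => b ((key L M c).2 e)) fun e => a ((key M L fun w => (c w).trans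
    ⟨fun ⟨u, a, v, b, c⟩ => ⟨v, b, u, a, c.comm⟩, fun ⟨u, a, v, b, c⟩ => ⟨v, b, u, a, c.comm⟩⟩).2 e)

end Pool.Agent.H.MP_ea5d49_lc
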